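import Pool.Agent.H69.SFA.CerP
import Pool.Agent.H69.SFA.Spc
import Pool.Agent.H99.SFA.Irr

/-!
# [H98 SFB CerS] THEOREM SF, phase 3 (radicals): the existence of a certificate of type 3 is recursively enumerable
-/

namespace Pool.Agent.H98.SFB

open Pool.Agent.H8.Siegel Pool.Agent.H69.AL Pool.Agent.H98.AL Pool.Agent.H85.SA Pool.Agent.H85.SB
open Pool.Agent.H69.SFA

variable {α : Type*} [Primcodable α]

theorem uc_rd {r a b : α → ℕ} (hr : Primrec r) (ha : Primrec a) (hb : Primrec b) :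
    UC fun p => rd (r p) (a p) (b p) :=
  ((UC.C (IC.nat hb)).mul (UC.X.pow hr)).sub (UC.C (IC.nat ha))

theorem uc_irq {r a b : α → ℕ} (hr : Primrec r) (ha : Primrec a) (hb : Primrec b) :
    UC fun p => (Polynomial.X : Polynomial ℤ) ^ r p - Polynomial.C ((a p * b p ^ (r p - 1) : ℕ) : ℤ) :=
  (UC.X.pow hr).sub (UC.C (IC.nat (Primrec.nat_mul.comp ha
    (primrec_pwr hb (Primrec.nat_sub.comp hr (Primrec.const 1))))))

theorem numR_iff {a b r s M t w kp : ℕ} : NumR a b r s M t w kp ↔ a ≠ b ∧ 2 * |(a : ℤ) - b| ≤ b ∧ 1 ≤ w ∧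
    s * (2 * t + 1) * (2 * t + 2) ≤ 2 * w * kp ∧ w + M + 1 ≤ 2 * t + 1 ∧
    |(a : ℤ) - b| ^ (r * (2 * t + 1 - w - M - 1)) *
        ((max a b : ℕ) * 2 ^ (3 * r + kp * r ^ 2)) ^ (2 * t + 1 + w) ≤
      (b : ℤ) ^ (r * (2 * t + 1 - w - M - 1)) :=
  ⟨fun h => ⟨h.ne, h.cl, h.w1, h.kw, h.wM, h.num⟩, fun ⟨h1, h2, h3, h4, h5, h6⟩ => ⟨h1, h2, h3, h4, h5, h6⟩⟩

theorem primrec_numR {a b r s M t w kp : α → ℕ} (ha : Primrec a) (hb : Primrec b) (hr : Primrec r)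
    (hs : Primrec s) (hM : Primrec M) (ht : Primrec t) (hw : Primrec w) (hk : Primrec kp) :
    PrimrecPred fun p => NumR (a p) (b p) (r p) (s p) (M p) (t p) (w p) (kp p) := by
  have add : ∀ {f g : α → ℕ}, Primrec f → Primrec g → Primrec fun p => f p + g p :=
    fun hf hg => Primrec.nat_add.comp hf hg
  have mul : ∀ {f g : α → ℕ}, Primrec f → Primrec g → Primrec fun p => f p * g p :=
    fun hf hg => Primrec.nat_mul.comp hf hg
  have sub : ∀ {f g : α → ℕ}, Primrec f → Primrec g → Primrec fun p => f p - g p :=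
    fun hf hg => Primrec.nat_sub.comp hf hg
  have le : ∀ {f g : α → ℕ}, Primrec f → Primrec g → PrimrecPred fun p => f p ≤ g p :=
    fun hf hg => PrimrecRel.comp Primrec.nat_le hf hg
  have c : ∀ n : ℕ, Primrec fun _ : α => n := fun n => Primrec.const n
  have U1 : Primrec fun p => 2 * t p + 1 := add (mul (c 2) ht) (c 1)
  have U2 : Primrec fun p => 2 * t p + 2 := add (mul (c 2) ht) (c 2)
  have hd : IC fun p => |(a p : ℤ) - b p| := ((IC.nat ha).sub (IC.nat hb)).abs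
  have hE : Primrec fun p => r p * (2 * t p + 1 - w p - M p - 1) :=
    mul hr (sub (sub (sub U1 hw) hM) (c 1))
  have h1 : PrimrecPred fun p => a p ≠ b p := (PrimrecRel.comp Primrec.eq ha hb).not
  have h2 : PrimrecPred fun p => 2 * |(a p : ℤ) - b p| ≤ b p := ((IC.const 2).mul hd).le (IC.nat hb)
  have h3 : PrimrecPred fun p => 1 ≤ w p := le (c 1) hw
  have h4 : PrimrecPred fun p => s p * (2 * t p + 1) * (2 * t p + 2) ≤ 2 * w p * kp p :=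
    le (mul (mul hs U1) U2) (mul (mul (c 2) hw) hk)
  have h5 : PrimrecPred fun p => w p + M p + 1 ≤ 2 * t p + 1 := le (add (add hw hM) (c 1)) U1
  have hmax : Primrec fun p => max (a p) (b p) := Primrec.nat_max.comp ha hb
  have hK : Primrec fun p => 2 ^ (3 * r p + kp p * r p ^ 2) :=
    primrec_pwr (c 2) (add (mul (c 3) hr) (mul hk (primrec_pwr hr (c 2))))
  have hK' : IC fun p => (((max (a p) (b p) : ℕ) : ℤ) * 2 ^ (3 * r p + kp p * r p ^ 2)) := by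
    have h := (IC.nat hmax).mul (IC.nat hK)
    simpa only [Nat.cast_pow, Nat.cast_ofNat] using h
  have h6 := ((hd.pow hE).mul (hK'.pow (add U1 hw))).le ((IC.nat hb).pow hE)
  exact (h1.and (h2.and (h3.and (h4.and (h5.and h6))))).of_eq fun p => numR_iff.symm

/-- the numbers `r, a, b, M, t, w, kp` -/
abbrev W7 : Type := ℕ × ℕ × ℕ × ℕ × ℕ × ℕ × ℕ

theorem cerS_iff {F : P2} {Z : ℕ} : CerS F Z ↔ ∃ y : W7,
    (2 ≤ y.1 ∧ y.1 ≤ Z ∧ y.2.1 ≤ Z ∧ y.2.2.1 ≤ Z ∧ y.2.2.2.2.1 ≤ Z ∧ y.2.2.2.2.2.2 ≤ Z ∧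
      ((Polynomial.X ^ y.1 - Polynomial.C ((y.2.1 * y.2.2.1 ^ (y.1 - 1) : ℕ) : ℤ)).Monic ∧
        Irreducible (Polynomial.X ^ y.1 - Polynomial.C ((y.2.1 * y.2.2.1 ^ (y.1 - 1) : ℕ) : ℤ)))) ∧
    ∃ d : Dt, NumR y.2.1 y.2.2.1 y.1 d.s y.2.2.2.1 y.2.2.2.2.1 y.2.2.2.2.2.1 y.2.2.2.2.2.2 ∧
      CerP F (rd y.1 y.2.1 y.2.2.1) y.2.2.2.1 y.2.2.2.2.1 Z d := by
  constructor
  · rintro ⟨r, a, b, M, t, w, kp, d, h1, h2, h3, h4, h5, h6, h7, h8, h9⟩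
    exact ⟨(r, a, b, M, t, w, kp), ⟨h1, h2, h3, h4, h5, h6,
      Polynomial.monic_X_pow_sub_C _ (by omega), h7⟩, d, h8, h9⟩
  · rintro ⟨⟨r, a, b, M, t, w, kp⟩, ⟨h1, h2, h3, h4, h5, h6, -, h7⟩, d, h8, h9⟩
    exact ⟨r, a, b, M, t, w, kp, d, h1, h2, h3, h4, h5, h6, h7, h8, h9⟩

theorem sr_cerS {F : α → P2} (hF : PC F) {Z : α → ℕ} (hZ : Primrec Z) :
    SR fun a => CerS (F a) (Z a) := by
  have hy : Primrec fun p : α × W7 => p.2 := Primrec.snd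
  have y0 : Primrec fun p : α × W7 => p.2.1 := Primrec.fst.comp hy
  have z1 : Primrec fun p : α × W7 => p.2.2 := Primrec.snd.comp hy
  have y1 : Primrec fun p : α × W7 => p.2.2.1 := Primrec.fst.comp z1
  have z2 : Primrec fun p : α × W7 => p.2.2.2 := Primrec.snd.comp z1
  have y2 : Primrec fun p : α × W7 => p.2.2.2.1 := Primrec.fst.comp z2
  have z3 : Primrec fun p : α × W7 => p.2.2.2.2 := Primrec.snd.comp z2
  have y3 : Primrec fun p : α × W7 => p.2.2.2.2.1 := Primrec.fst.comp z3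
  have z4 : Primrec fun p : α × W7 => p.2.2.2.2.2 := Primrec.snd.comp z3
  have y4 : Primrec fun p : α × W7 => p.2.2.2.2.2.1 := Primrec.fst.comp z4
  have z5 : Primrec fun p : α × W7 => p.2.2.2.2.2.2 := Primrec.snd.comp z4
  have y5 : Primrec fun p : α × W7 => p.2.2.2.2.2.2.1 := Primrec.fst.comp z5
  have y6 : Primrec fun p : α × W7 => p.2.2.2.2.2.2.2 := Primrec.snd.comp z5
  have hZ' : Primrec fun p : α × W7 => Z p.1 := hZ.comp Primrec.fst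
  have leZ : ∀ {f : α × W7 → ℕ}, Primrec f → PrimrecPred fun p => f p ≤ Z p.1 := fun hf =>
    PrimrecRel.comp Primrec.nat_le hf hZ'
  have a1 : PrimrecPred fun p : α × W7 => 2 ≤ p.2.1 := PrimrecRel.comp Primrec.nat_le (Primrec.const 2) y0
  have a2 := H99.SFA.sr_irr (uc_irq y0 y1 y2)
  have hex := sr_ex_cerP (F := fun p : α × W7 => F p.1) (hF.comp Primrec.fst) (uc_rd y0 y1 y2) y3 y4 hZ'
    (P := fun p s => NumR p.2.2.1 p.2.2.2.1 p.2.1 s p.2.2.2.2.1 p.2.2.2.2.2.1 p.2.2.2.2.2.2.1 p.2.2.2.2.2.2.2)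
    (SR.of_prim (primrec_numR (y1.comp Primrec.fst) (y2.comp Primrec.fst) (y0.comp Primrec.fst) Primrec.snd
      (y3.comp Primrec.fst) (y4.comp Primrec.fst) (y5.comp Primrec.fst) (y6.comp Primrec.fst)))
  have key := (SR.of_prim (a1.and ((leZ y0).and ((leZ y1).and ((leZ y2).and ((leZ y4).and
    ((leZ y6).and a2))))))).and hex
  exact (SR.ex (P := fun (a : α) (y : W7) =>
    (2 ≤ y.1 ∧ y.1 ≤ Z a ∧ y.2.1 ≤ Z a ∧ y.2.2.1 ≤ Z a ∧ y.2.2.2.2.1 ≤ Z a ∧ y.2.2.2.2.2.2 ≤ Z a ∧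
      ((Polynomial.X ^ y.1 - Polynomial.C ((y.2.1 * y.2.2.1 ^ (y.1 - 1) : ℕ) : ℤ)).Monic ∧
        Irreducible (Polynomial.X ^ y.1 - Polynomial.C ((y.2.1 * y.2.2.1 ^ (y.1 - 1) : ℕ) : ℤ)))) ∧
    ∃ d : Dt, NumR y.2.1 y.2.2.1 y.1 d.s y.2.2.2.1 y.2.2.2.2.1 y.2.2.2.2.2.1 y.2.2.2.2.2.2 ∧
      CerP (F a) (rd y.1 y.2.1 y.2.2.1) y.2.2.2.1 y.2.2.2.2.1 (Z a) d) key).of_iff fun a => cerS_iff

end Pool.Agent.H98.SFB
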