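import Pool.Agent.H98.SFA.Fin3
import Pool.Agent.H98.SFB.CerS
import Pool.Agent.H69.SFA.Cr0
import Pool.Agent.H85.SB.Cmh
import Pool.Agent.H85.SB.Snd
import Pool.Agent.H61.SB.Prm

/-!
# [H98 SFB AlgH] THEOREM SF, phase 3 (radicals): the algorithm with input `F` alone, four types of certificates
-/

namespace Pool.Agent.H98.SFB

open Pool.Agent.H8.Siegel Pool.Agent.H69.AL Pool.Agent.H98.AL Pool.Agent.H85.SA Pool.Agent.H85.SB
open Pool.Agent.H69.SFA Pool.Agent.H65.RG Pool.Agent.H98.SFA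

/-- the bound -/
def PhiH (Z : ℕ) : ℕ := Phi Z + Ph2 Z + PhiS Z

theorem primrec_PhiH : Primrec PhiH :=
  Primrec.nat_add.comp (Primrec.nat_add.comp primrec_Phi primrec_Ph2) Pool.Agent.H61.SB.prim_PhiS

/-- the recursively enumerable form of `CerH` -/
def Ph (c : Code) (w : Code × ℕ) (Z : ℕ) : Prop :=
  P00 (toPoly c) Z ∨ (∃ d, Cer2 (toPoly c) Z d) ∨
    (Spc (uni w.1) w.2 Z ∧ ∃ d, Cer (toPoly c) (uni w.1) w.2 Z d) ∨ CerS (toPoly c) Z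

theorem sr_Ph : SR fun p : (Code × ℕ) × Code × ℕ => Ph p.1.1 p.2 p.1.2 := by
  have i1 : Primrec fun p : (Code × ℕ) × Code × ℕ => ((p.1.1, p.1.2) : Code × ℕ) :=
    Primrec.pair (Primrec.fst.comp Primrec.fst) (Primrec.snd.comp Primrec.fst)
  have h0 : SR fun p : Code × ℕ => P00 (toPoly p.1) p.2 := sr_p00 (PC.code Primrec.fst) Primrec.snd
  have j1 : SR fun p : (Code × ℕ) × Code × ℕ => P00 (toPoly p.1.1) p.1.2 := SR.comp h0 i1
  have k0 : PC fun p : (Code × ℕ) × Code × ℕ => toPoly p.1.1 := PC.code (Primrec.fst.comp Primrec.fst)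
  have k1 : UC fun p : (Code × ℕ) × Code × ℕ => uni p.2.1 := UC.code (Primrec.fst.comp Primrec.snd)
  have k2 : Primrec fun p : (Code × ℕ) × Code × ℕ => p.2.2 := Primrec.snd.comp Primrec.snd
  have k3 : Primrec fun p : (Code × ℕ) × Code × ℕ => p.1.2 := Primrec.snd.comp Primrec.fst
  have j2 := Pool.Agent.H37.SFA.sr_cer2 k0 k3
  have j3 := sr_cer k0 k1 k2 k3
  have j4 := sr_spc k1 k2 k3
  exact j1.or (j2.or ((j4.and j3).or (sr_cerS k0 k3)))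

theorem ph_sound {c : Code} {w : Code × ℕ} {Z : ℕ} (h : Ph c w Z) {x y : ℤ}
    (hxy : MvPolynomial.eval ![x, y] (toPoly c) = 0) : max |x| |y| ≤ (PhiH Z : ℤ) := by
  have e1 : (Phi Z : ℤ) ≤ (PhiH Z : ℤ) := by
    exact_mod_cast (show Phi Z ≤ PhiH Z by unfold PhiH; omega)
  have e2 : (Ph2 Z : ℤ) ≤ (PhiH Z : ℤ) := by
    exact_mod_cast (show Ph2 Z ≤ PhiH Z by unfold PhiH; omega)
  have e3 : (PhiS Z : ℤ) ≤ (PhiH Z : ℤ) := by
    exact_mod_cast (show PhiS Z ≤ PhiH Z by unfold PhiH; omega)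
  rcases h with h | ⟨d, hd⟩ | ⟨hS, d, hd⟩ | h
  · exact (Pool.Agent.H80.SA.sound0 (p00_sound h) hxy).trans e1
  · exact (cer2_sound hd hxy).trans e2
  · obtain ⟨B, _, hB, hSp⟩ := spc_sound hS
    exact (sound1R hd hSp hB hxy).trans e1
  · exact (soundS h hxy).trans e3

theorem ph_ex {c : Code} (h : ∃ Z, CerH (toPoly c) Z) : ∃ w Z, Ph c w Z := by
  obtain ⟨Z, (h | h | ⟨q, κ, hS, hd⟩) | h⟩ := h
  · obtain ⟨Z', hZ'⟩ := p00_ex ⟨Z, h⟩
    exact ⟨([], 0), Z', Or.inl hZ'⟩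
  · exact ⟨([], 0), Z, Or.inr (Or.inl h)⟩
  · obtain ⟨q', rfl⟩ := exists_uni q
    exact ⟨(q', κ), Z, Or.inr (Or.inr (Or.inl ⟨hS, hd⟩))⟩
  · exact ⟨([], 0), Z, Or.inr (Or.inr (Or.inr h))⟩

/-- THE ALGORITHM, WITH RADICALS -/
theorem algH : Pool.Agent.H85.SB.AlgH := by
  obtain ⟨A, hA, h1, h2⟩ := findw (α := Code) (β := Code × ℕ) (P := Ph) sr_Ph primrec_PhiH
  refine ⟨A, hA, fun c => ⟨fun b hb x y hxy => ?_, fun hirr hc => ?_⟩⟩
  · obtain ⟨w, Z, hP, rfl⟩ := h1 c b hb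
    exact ph_sound hP hxy
  · obtain ⟨w, Z, hP⟩ := ph_ex (completeH hirr hc)
    exact h2 c w Z hP

end Pool.Agent.H98.SFB
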